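import Mathlib
import Pool.Agent.H788R2.Trunc3

set_option autoImplicit false

namespace Pool.Agent.Results.MP_c54d0a_an.NonrealZeros

open MeasureTheory

/-- The Riemann kernel: the sum over `n ≥ 1` of
`(2 n⁴ π² e^{9t} - 3 n² π e^{5t}) exp (-n² π e^{4t})` (the index is shifted by one). -/
noncomputable def Phi (t : ℝ) : ℝ :=
  ∑' n : ℕ, (2 * ((n : ℝ) + 1) ^ 4 * Real.pi ^ 2 * Real.exp (9 * t)
    - 3 * ((n : ℝ) + 1) ^ 2 * Real.pi * Real.exp (5 * t)) *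
      Real.exp (-(((n : ℝ) + 1) ^ 2 * Real.pi * Real.exp (4 * t)))

/-- The truncated cosine transform `F_a z = ∫_0^a Φ(t) cos (z t) dt`. -/
noncomputable def F (a : ℝ) (z : ℂ) : ℂ :=
  ∫ t in (0 : ℝ)..a, ((Phi t : ℝ) : ℂ) * Complex.cos (z * t)

/-- Sanity: the series defining the kernel converges, the kernel is continuous and positive, and
`F_a` is entire. -/
lemma sanity : (∀ t : ℝ, Summable fun n : ℕ =>
    (2 * ((n : ℝ) + 1) ^ 4 * Real.pi ^ 2 * Real.exp (9 * t)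
    - 3 * ((n : ℝ) + 1) ^ 2 * Real.pi * Real.exp (5 * t)) *
      Real.exp (-(((n : ℝ) + 1) ^ 2 * Real.pi * Real.exp (4 * t)))) ∧
    Continuous Phi ∧ (∀ t : ℝ, 0 < Phi t) ∧ (∀ a : ℝ, Differentiable ℂ (F a)) :=
  ⟨Pool.Agent.Helper242.RK.summable_Phi, Pool.Agent.Helper242.RK.continuous_Phi,
    Pool.Agent.Helper242.RK.Phi_pos, Pool.Agent.H788R2.Trunc.differentiable_H⟩

/-- For every `a ≥ 5` the function `F_a` has a non-real zero. -/
theorem result : ∀ a : ℝ, 5 ≤ a → ∃ z : ℂ, F a z = 0 ∧ z.im ≠ 0 := by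
  intro a ha
  obtain ⟨z, hz, him⟩ := Pool.Agent.H788R2.Trunc.main ha
  refine ⟨z, hz, ?_⟩
  have h1 : 0 < 2 * Real.pi * Real.exp (4 * a) := by positivity
  exact (h1.trans him).ne'
  

end Pool.Agent.Results.MP_c54d0a_an.NonrealZeros
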